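import Pool.Agent.N929.EY.Stm

/-!
# Project EY, task CLW: sizes of the classes with two windows
-/

set_option autoImplicit false
set_option linter.unusedVariables false

namespace Pool.Agent.N163.EY

open Pool.Agent.N929.EX Pool.Agent.N929.EY Pool.Agent.H976R2 Pool.Agent.H976R2.Dir Finset
open scoped Classical

/-- double counting -/
theorem dc (A B : Finset (List Dir)) (D : Finset (ℤ × ℤ)) (i : ℕ)
    (O O' : List Dir → Finset (ℤ × ℤ)) (f g : List Dir → (ℤ × ℤ) → List Dir)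
    (hA : ∀ w ∈ A, O w ⊆ D ∧ (O w).card = i) (hB : ∀ w ∈ B, (O' w).card = i + 1)
    (hf : ∀ w ∈ A, ∀ s ∈ D, s ∉ O w → f w s ∈ B ∧ s ∈ O' (f w s) ∧ g (f w s) s = w)
    (hg : ∀ w ∈ B, ∀ s ∈ O' w, g w s ∈ A ∧ s ∈ D ∧ s ∉ O (g w s) ∧ f (g w s) s = w) :
    A.card * (D.card - i) = B.card * (i + 1) := by
  have e1 : A.card * (D.card - i) = (A.sigma (fun w => D \ O w)).card := by
    rw [card_sigma, Finset.sum_const_nat (m := D.card - i)]
    intro w hw
    obtain ⟨h1, h2⟩ := hA w hw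
    rw [card_sdiff_of_subset h1, h2]
  have e2 : B.card * (i + 1) = (B.sigma (fun w => O' w)).card := by
    rw [card_sigma, Finset.sum_const_nat (m := i + 1)]
    intro w hw
    exact hB w hw
  rw [e1, e2]
  refine Finset.card_nbij' (fun x => ⟨f x.1 x.2, x.2⟩) (fun x => ⟨g x.1 x.2, x.2⟩) ?_ ?_ ?_ ?_
  · rintro ⟨w, s⟩ hx
    simp only [coe_sigma, Set.mem_sigma_iff, mem_coe, mem_sdiff] at hx ⊢
    obtain ⟨k1, k2, k3⟩ := hf w hx.1 s hx.2.1 hx.2.2
    exact ⟨k1, k2⟩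
  · rintro ⟨w, s⟩ hx
    simp only [coe_sigma, Set.mem_sigma_iff, mem_coe, mem_sdiff] at hx ⊢
    obtain ⟨k1, k2, k3, k4⟩ := hg w hx.1 s hx.2
    exact ⟨k1, k2, k3⟩
  · rintro ⟨w, s⟩ hx
    simp only [coe_sigma, Set.mem_sigma_iff, mem_coe, mem_sdiff] at hx ⊢
    obtain ⟨k1, k2, k3⟩ := hf w hx.1 s hx.2.1 hx.2.2
    rw [k3]
  · rintro ⟨w, s⟩ hx
    simp only [coe_sigma, Set.mem_sigma_iff, mem_coe, mem_sdiff] at hx ⊢
    obtain ⟨k1, k2, k3, k4⟩ := hg w hx.1 s hx.2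
    rw [k4]

theorem OO_sub {L : Finset (ℤ × ℤ)} {s : Fin 3} {T : ℕ × ℕ} {w : List Dir} :
    OO L s T w ⊆ DD L s T w := by
  intro q hq
  unfold N929.EX.OO at hq
  unfold N929.EX.DD
  rw [mem_filter] at hq ⊢
  obtain ⟨h1, k, h2⟩ := hq
  exact ⟨h1, k, Or.inr h2⟩

/-- the classes with free times -/
noncomputable def W (L : Finset (ℤ × ℤ)) (X : (ℕ → ℤ × ℤ) × (ℕ → ℤ × ℤ) × (ℕ → ℤ × ℤ))
    (D D' : Finset (ℤ × ℤ)) (p b m c d l n i j : ℕ) : Finset (List Dir) :=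
  (SW n).filter (fun w => tr p b m d l w = X ∧ DD L 1 (p, b) w = D ∧ DD L 1 (c, d) w = D' ∧
    (OO L 1 (p, b) w).card = i ∧ (OO L 1 (c, d) w).card = j)

theorem mem_W {L : Finset (ℤ × ℤ)} {X : (ℕ → ℤ × ℤ) × (ℕ → ℤ × ℤ) × (ℕ → ℤ × ℤ)}
    {D D' : Finset (ℤ × ℤ)} {p b m c d l n i j : ℕ} {w : List Dir} :
    w ∈ W L X D D' p b m c d l n i j ↔ w ∈ SW n ∧ tr p b m d l w = X ∧ DD L 1 (p, b) w = D ∧
      DD L 1 (c, d) w = D' ∧ (OO L 1 (p, b) w).card = i ∧ (OO L 1 (c, d) w).card = j := by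
  unfold W
  rw [mem_filter]

theorem tr1 {L : Finset (ℤ × ℤ)} {p b m c d l n : ℕ} {w w' : List Dir} {s : ℤ × ℤ}
    (h1 : p ≤ b) (h2 : c = b + m) (h3 : c ≤ d) (h4 : n = d + l)
    (h : WStep L p b n w s w') : tr p (b + 2) m (d + 2) l w' = tr p b m d l w := by
  unfold tr
  refine Prod.ext ?_ (Prod.ext ?_ ?_)
  · funext t
    show Lip.PP w' (0 + min t p) = Lip.PP w (0 + min t p)
    exact h.lo _ (by omega)
  · funext t
    show Lip.PP w' (b + 2 + min t m) = Lip.PP w (b + min t m)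
    rw [show b + 2 + min t m = b + min t m + 2 by omega]
    exact h.hi _ (by omega) (by omega)
  · funext t
    show Lip.PP w' (d + 2 + min t l) = Lip.PP w (d + min t l)
    rw [show d + 2 + min t l = d + min t l + 2 by omega]
    exact h.hi _ (by omega) (by omega)

theorem tr2 {L : Finset (ℤ × ℤ)} {p b m c d l n : ℕ} {w w' : List Dir} {s : ℤ × ℤ}
    (h1 : p ≤ b) (h2 : c = b + m) (h3 : c ≤ d) (h4 : n = d + l)
    (h : WStep L c d n w s w') : tr p b m (d + 2) l w' = tr p b m d l w := by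
  unfold tr
  refine Prod.ext ?_ (Prod.ext ?_ ?_)
  · funext t
    show Lip.PP w' (0 + min t p) = Lip.PP w (0 + min t p)
    exact h.lo _ (by omega)
  · funext t
    show Lip.PP w' (b + min t m) = Lip.PP w (b + min t m)
    exact h.lo _ (by omega)
  · funext t
    show Lip.PP w' (d + 2 + min t l) = Lip.PP w (d + min t l)
    rw [show d + 2 + min t l = d + min t l + 2 by omega]
    exact h.hi _ (by omega) (by omega)

theorem step1 (h : S_WT) {L : Finset (ℤ × ℤ)} (hL : CF L)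
    (X : (ℕ → ℤ × ℤ) × (ℕ → ℤ × ℤ) × (ℕ → ℤ × ℤ)) (D D' : Finset (ℤ × ℤ))
    (p b m c d l n i j : ℕ) (h1 : p ≤ b) (h2 : c = b + m) (h3 : c ≤ d) (h4 : n = d + l) :
    (W L X D D' p b m c d l n i j).card * (D.card - i) =
      (W L X D D' p (b + 2) m (c + 2) (d + 2) l (n + 2) (i + 1) j).card * (i + 1) := by
  obtain ⟨f, g, hf, hg⟩ := h L hL
  refine dc _ _ D i (fun w => OO L 1 (p, b) w) (fun w => OO L 1 (p, b + 2) w) f g ?_ ?_ ?_ ?_
  · intro w hw
    obtain ⟨k1, k2, k3, k4, k5, k6⟩ := mem_W.1 hw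
    refine ⟨?_, k5⟩
    rw [← k3]
    exact OO_sub
  · intro w hw
    obtain ⟨k1, k2, k3, k4, k5, k6⟩ := mem_W.1 hw
    exact k5
  · intro w hw s hs hs'
    obtain ⟨k1, k2, k3, k4, k5, k6⟩ := mem_W.1 hw
    obtain ⟨q, q'⟩ := hf p b n w s h1 (by omega) k1 (by rw [k3]; exact hs) hs'
    refine ⟨mem_W.2 ⟨q.sw', ?_, ?_, ?_, ?_, ?_⟩, ?_, q'⟩
    · rw [tr1 h1 h2 h3 h4 q, k2]
    · rw [q.dd, k3]
    · rw [q.dhi c d (by omega) h3 (by omega), k4]
    · rw [q.os, card_insert_of_notMem hs', k5]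
    · rw [q.ohi c d (by omega) h3 (by omega), k6]
    · show s ∈ OO L 1 (p, b + 2) (f w s)
      rw [q.os]
      exact mem_insert_self _ _
  · intro w hw s hs
    obtain ⟨k1, k2, k3, k4, k5, k6⟩ := mem_W.1 hw
    obtain ⟨q, q'⟩ := hg p b n w s h1 (by omega) k1 hs
    have e3 : DD L 1 (p, b) (g w s) = D := by rw [← q.dd, k3]
    refine ⟨mem_W.2 ⟨q.sw, ?_, e3, ?_, ?_, ?_⟩, ?_, q.nm, q'⟩
    · rw [← tr1 h1 h2 h3 h4 q, k2]
    · rw [← q.dhi c d (by omega) h3 (by omega), k4]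
    · have h6 := k5
      rw [q.os, card_insert_of_notMem q.nm] at h6
      omega
    · rw [← q.ohi c d (by omega) h3 (by omega), k6]
    · rw [← e3]
      exact q.mem

theorem step2 (h : S_WT) {L : Finset (ℤ × ℤ)} (hL : CF L)
    (X : (ℕ → ℤ × ℤ) × (ℕ → ℤ × ℤ) × (ℕ → ℤ × ℤ)) (D D' : Finset (ℤ × ℤ))
    (p b m c d l n i j : ℕ) (h1 : p ≤ b) (h2 : c = b + m) (h3 : c ≤ d) (h4 : n = d + l) :
    (W L X D D' p b m c d l n i j).card * (D'.card - j) =
      (W L X D D' p b m c (d + 2) l (n + 2) i (j + 1)).card * (j + 1) := by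
  obtain ⟨f, g, hf, hg⟩ := h L hL
  refine dc _ _ D' j (fun w => OO L 1 (c, d) w) (fun w => OO L 1 (c, d + 2) w) f g ?_ ?_ ?_ ?_
  · intro w hw
    obtain ⟨k1, k2, k3, k4, k5, k6⟩ := mem_W.1 hw
    refine ⟨?_, k6⟩
    rw [← k4]
    exact OO_sub
  · intro w hw
    obtain ⟨k1, k2, k3, k4, k5, k6⟩ := mem_W.1 hw
    exact k6
  · intro w hw s hs hs'
    obtain ⟨k1, k2, k3, k4, k5, k6⟩ := mem_W.1 hw
    obtain ⟨q, q'⟩ := hf c d n w s h3 (by omega) k1 (by rw [k4]; exact hs) hs'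
    refine ⟨mem_W.2 ⟨q.sw', ?_, ?_, ?_, ?_, ?_⟩, ?_, q'⟩
    · rw [tr2 h1 h2 h3 h4 q, k2]
    · rw [q.dlo p b h1 (by omega), k3]
    · rw [q.dd, k4]
    · rw [q.olo p b h1 (by omega), k5]
    · rw [q.os, card_insert_of_notMem hs', k6]
    · show s ∈ OO L 1 (c, d + 2) (f w s)
      rw [q.os]
      exact mem_insert_self _ _
  · intro w hw s hs
    obtain ⟨k1, k2, k3, k4, k5, k6⟩ := mem_W.1 hw
    obtain ⟨q, q'⟩ := hg c d n w s h3 (by omega) k1 hs
    have e3 : DD L 1 (c, d) (g w s) = D' := by rw [← q.dd, k4]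
    refine ⟨mem_W.2 ⟨q.sw, ?_, ?_, e3, ?_, ?_⟩, ?_, q.nm, q'⟩
    · rw [← tr2 h1 h2 h3 h4 q, k2]
    · rw [← q.dlo p b h1 (by omega), k3]
    · rw [← q.olo p b h1 (by omega), k5]
    · have h6 := k6
      rw [q.os, card_insert_of_notMem q.nm] at h6
      omega
    · rw [← e3]
      exact q.mem

theorem HW_eq (L : Finset (ℤ × ℤ)) (X : (ℕ → ℤ × ℤ) × (ℕ → ℤ × ℤ) × (ℕ → ℤ × ℤ))
    (D D' : Finset (ℤ × ℤ)) (p u m v l i j b c d n : ℕ) (hb : b = p + (u + 2 * i))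
    (hc : c = b + m) (hd : d = c + (v + 2 * j)) (hn : n = d + l) :
    HW L X D D' p u m v l i j = W L X D D' p b m c d l n i j := by
  subst hb hc hd hn
  rfl

theorem one (F : ℕ → ℕ) (K : ℕ) (h : ∀ k, F k * (K - k) = F (k + 1) * (k + 1)) (k : ℕ) :
    F k = K.choose k * F 0 := by
  induction k with
  | zero => simp
  | succ k ih =>
    have h1 := h k
    rw [ih] at h1
    have h2 := Nat.choose_succ_right_eq K k
    apply Nat.eq_of_mul_eq_mul_right (Nat.succ_pos k)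
    rw [Nat.succ_eq_add_one]
    calc F (k + 1) * (k + 1) = K.choose k * F 0 * (K - k) := h1.symm
      _ = (K.choose k * (K - k)) * F 0 := by ring
      _ = (K.choose (k + 1) * (k + 1)) * F 0 := by rw [h2]
      _ = _ := by ring

theorem clw (h : S_WT) : S_CLW := by
  intro L hL X D D' p u m v l i j
  have a1 : (HW L X D D' p u m v l i j).card =
      D.card.choose i * (HW L X D D' p u m v l 0 j).card := by
    refine one (fun i => (HW L X D D' p u m v l i j).card) D.card ?_ i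
    intro k
    show (HW L X D D' p u m v l k j).card * (D.card - k) =
      (HW L X D D' p u m v l (k + 1) j).card * (k + 1)
    rw [HW_eq L X D D' p u m v l k j _ _ _ _ rfl rfl rfl rfl,
      HW_eq L X D D' p u m v l (k + 1) j (p + (u + 2 * k) + 2) (p + (u + 2 * k) + m + 2)
        (p + (u + 2 * k) + m + (v + 2 * j) + 2) (p + (u + 2 * k) + m + (v + 2 * j) + l + 2)
        (by omega) (by omega) (by omega) (by omega)]
    exact step1 h hL X D D' p _ m _ _ l _ k j (by omega) rfl (by omega) rfl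
  have a2 : (HW L X D D' p u m v l 0 j).card =
      D'.card.choose j * (HW L X D D' p u m v l 0 0).card := by
    refine one (fun j => (HW L X D D' p u m v l 0 j).card) D'.card ?_ j
    intro k
    show (HW L X D D' p u m v l 0 k).card * (D'.card - k) =
      (HW L X D D' p u m v l 0 (k + 1)).card * (k + 1)
    rw [HW_eq L X D D' p u m v l 0 k _ _ _ _ rfl rfl rfl rfl,
      HW_eq L X D D' p u m v l 0 (k + 1) (p + (u + 2 * 0)) (p + (u + 2 * 0) + m)
        (p + (u + 2 * 0) + m + (v + 2 * k) + 2) (p + (u + 2 * 0) + m + (v + 2 * k) + l + 2)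
        (by omega) (by omega) (by omega) (by omega)]
    exact step2 h hL X D D' p _ m _ _ l _ 0 k (by omega) rfl (by omega) rfl
  rw [a1, a2]
  ring

end Pool.Agent.N163.EY
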